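import Mathlib

set_option autoImplicit false

namespace Pool.Agent.Results.MP_56f6b7_co.BalancedNotGH

open Matrix

/-- `H` is a Butson Hadamard matrix `BH(w,v)`: all entries are `w`-th roots of unity and
`H H^* = v I`. -/
def IsButson (w : ℕ) {v : ℕ} (H : Matrix (Fin v) (Fin v) ℂ) : Prop :=
  (∀ i j, H i j ^ w = 1) ∧ H * Hᴴ = (v : ℂ) • (1 : Matrix (Fin v) (Fin v) ℂ)

/-- `H` is normalised: its first row and its first column consist of ones. -/
def IsNormalised {v : ℕ} [NeZero v] (H : Matrix (Fin v) (Fin v) ℂ) : Prop :=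
  (∀ j, H 0 j = 1) ∧ ∀ i, H i 0 = 1

/-- every row other than the first contains every `w`-th root of unity exactly `v / w` times -/
def RowBalanced (w : ℕ) {v : ℕ} [NeZero v] (H : Matrix (Fin v) (Fin v) ℂ) : Prop :=
  ∀ i, i ≠ 0 → ∀ z : ℂ, z ^ w = 1 → Nat.card {j : Fin v // H i j = z} = v / w

/-- every column other than the first contains every `w`-th root of unity exactly `v / w` times -/
def ColumnBalanced (w : ℕ) {v : ℕ} [NeZero v] (H : Matrix (Fin v) (Fin v) ℂ) : Prop :=
  ∀ j, j ≠ 0 → ∀ z : ℂ, z ^ w = 1 → Nat.card {i : Fin v // H i j = z} = v / w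

/-- `H` is a generalised Hadamard matrix `GH(w, v/w)` over the group of `w`-th roots of unity. -/
def IsGeneralisedHadamard (w : ℕ) {v : ℕ} (H : Matrix (Fin v) (Fin v) ℂ) : Prop :=
  (∀ i j, H i j ^ w = 1) ∧
    ∀ i k, i ≠ k → ∀ h : ℂ, h ^ w = 1 → Nat.card {j : Fin v // H i j * (H k j)⁻¹ = h} = v / w

/-- The exponents of the example. -/
def E : Fin 16 → Fin 16 → Fin 4 := ![
  ![0,0,0,0,0,0,0,0,0,0,0,0,0,0,0,0],
  ![0,0,0,0,1,1,1,1,2,2,2,2,3,3,3,3],
  ![0,0,1,3,1,1,2,3,0,0,3,3,1,2,2,2],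
  ![0,0,3,1,0,2,3,2,0,2,3,1,2,3,1,1],
  ![0,1,1,3,0,3,2,3,2,3,1,1,2,2,0,0],
  ![0,1,2,2,0,3,3,1,0,1,2,2,0,1,3,3],
  ![0,1,3,0,3,2,0,0,2,3,2,3,1,1,2,1],
  ![0,1,3,3,2,0,2,1,3,2,0,0,3,1,1,2],
  ![0,2,0,1,3,0,2,3,1,1,2,3,2,0,1,3],
  ![0,2,1,3,3,1,0,2,3,1,0,2,2,0,3,1],
  ![0,2,2,2,3,1,1,0,1,3,3,1,0,3,0,2],
  ![0,2,3,2,1,2,1,3,3,1,1,0,0,3,2,0],
  ![0,3,0,2,2,2,3,1,1,0,1,3,3,2,0,1],
  ![0,3,1,1,2,3,0,0,3,2,0,2,1,2,1,3],
  ![0,3,2,0,2,3,1,2,1,0,3,1,3,1,2,0],
  ![0,3,2,1,1,0,3,2,2,3,1,0,1,0,3,2]]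

/-- the powers of `i` -/
noncomputable def root (e : Fin 4) : ℂ := Complex.I ^ (e : ℕ)

theorem root_eq (e : Fin 4) : root e = ![(1 : ℂ), Complex.I, -1, -Complex.I] e := by
  fin_cases e <;> simp [root, pow_succ]

theorem root_pow (e : Fin 4) : root e ^ 4 = 1 := by
  rw [root, ← pow_mul, mul_comm, pow_mul, Complex.I_pow_four, one_pow]

theorem root_ne_zero (e : Fin 4) : root e ≠ 0 := pow_ne_zero _ Complex.I_ne_zero

theorem root_inj {a b : Fin 4} (h : root a = root b) : a = b := by
  rw [root_eq, root_eq] at h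
  revert h
  fin_cases a <;> fin_cases b <;> simp [Complex.ext_iff] <;> norm_num

theorem exists_root {z : ℂ} (hz : z ^ 4 = 1) : ∃ e : Fin 4, z = root e := by
  have h : (z - 1) * (z + 1) * ((z - Complex.I) * (z + Complex.I)) = 0 := by
    have : Complex.I ^ 2 = -1 := Complex.I_sq
    linear_combination hz - (z ^ 2 - 1) * this
  rcases mul_eq_zero.mp h with h | h
  · rcases mul_eq_zero.mp h with h | h
    · exact ⟨0, by rw [root_eq]; simpa using sub_eq_zero.mp h⟩
    · exact ⟨2, by rw [root_eq]; simpa using eq_neg_of_add_eq_zero_left h⟩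
  · rcases mul_eq_zero.mp h with h | h
    · exact ⟨1, by rw [root_eq]; simpa using sub_eq_zero.mp h⟩
    · exact ⟨3, by rw [root_eq]; simpa using eq_neg_of_add_eq_zero_left h⟩

theorem root_mul (a b : Fin 4) : root a * root b = root (a + b) := by
  rw [root_eq, root_eq, root_eq]
  fin_cases a <;> fin_cases b <;> simp

theorem root_inv (a : Fin 4) : (root a)⁻¹ = root (-a) := by
  apply inv_eq_of_mul_eq_one_right
  rw [root_mul]; simp [root]

theorem root_star (a : Fin 4) : star (root a) = root (-a) := by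
  rw [root_eq, root_eq]
  fin_cases a <;> simp

/-- The example. -/
noncomputable def H : Matrix (Fin 16) (Fin 16) ℂ := fun i j => root (E i j)

theorem H_apply (i j : Fin 16) : H i j = root (E i j) := rfl

/-- a sum of roots, sorted by exponent -/
theorem sum_root (f : Fin 16 → Fin 4) : ∑ j, root (f j) =
    ∑ e : Fin 4, ((Finset.univ.filter fun j => f j = e).card : ℂ) * root e := by
  classical
  rw [← Finset.sum_fiberwise (s := Finset.univ) (g := f) (f := fun j => root (f j))]
  refine Finset.sum_congr rfl fun e _ => ?_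
  rw [Finset.sum_congr rfl (g := fun _ => root e)]
  · rw [Finset.sum_const, nsmul_eq_mul]
  · intro j hj
    rw [(Finset.mem_filter.mp hj).2]

theorem sum_root_zero (f : Fin 16 → Fin 4)
    (h0 : (Finset.univ.filter fun j => f j = 0).card = (Finset.univ.filter fun j => f j = 2).card)
    (h1 : (Finset.univ.filter fun j => f j = 1).card = (Finset.univ.filter fun j => f j = 3).card) :
    ∑ j, root (f j) = 0 := by
  rw [sum_root, Fin.sum_univ_four, h0, h1]
  simp only [root_eq]
  simp

theorem counts : ∀ i k : Fin 16, i ≠ k →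
    (Finset.univ.filter fun j => E i j + -E k j = 0).card =
      (Finset.univ.filter fun j => E i j + -E k j = 2).card ∧
    (Finset.univ.filter fun j => E i j + -E k j = 1).card =
      (Finset.univ.filter fun j => E i j + -E k j = 3).card := by
  decide +kernel

theorem butson : IsButson 4 H := by
  refine ⟨fun i j => root_pow _, ?_⟩
  ext i k
  rw [Matrix.mul_apply, Matrix.smul_apply, Matrix.one_apply]
  have h : ∀ j, H i j * Hᴴ j k = root (E i j + -E k j) := by
    intro j
    rw [Matrix.conjTranspose_apply, H_apply, H_apply, root_star, root_mul]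
  simp only [h]
  by_cases hik : i = k
  · subst hik
    simp [root]
  · rw [if_neg hik, smul_zero]
    exact sum_root_zero _ (counts i k hik).1 (counts i k hik).2

theorem card_eq (f : Fin 16 → Fin 4) (e : Fin 4) :
    Nat.card {j : Fin 16 // root (f j) = root e} = (Finset.univ.filter fun j => f j = e).card := by
  classical
  rw [Nat.card_eq_fintype_card, Fintype.card_subtype]
  congr 1
  ext j
  simp only [Finset.mem_filter, Finset.mem_univ, true_and]
  exact ⟨fun h => root_inj h, fun h => by rw [h]⟩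

theorem row_counts : ∀ i : Fin 16, i ≠ 0 → ∀ e : Fin 4,
    (Finset.univ.filter fun j => E i j = e).card = 4 := by
  decide +kernel

theorem col_counts : ∀ j : Fin 16, j ≠ 0 → ∀ e : Fin 4,
    (Finset.univ.filter fun i => E i j = e).card = 4 := by
  decide +kernel

theorem bad_count : (Finset.univ.filter fun j => E 4 j + -E 1 j = 0).card = 2 := by
  decide +kernel

/-- **Main result.** There is a normalised `BH(4,16)` that is row balanced and column balanced but
is not a `GH(4,4)` over the fourth roots of unity. -/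
theorem result : ∃ H : Matrix (Fin 16) (Fin 16) ℂ,
    IsButson 4 H ∧ IsNormalised H ∧ RowBalanced 4 H ∧ ColumnBalanced 4 H ∧
      ¬ IsGeneralisedHadamard 4 H := by
  refine ⟨H, butson, ⟨?_, ?_⟩, ?_, ?_, ?_⟩
  · intro j
    have : E 0 j = 0 := by revert j; decide +kernel
    simp [H, root, this]
  · intro i
    have : E i 0 = 0 := by revert i; decide +kernel
    simp [H, root, this]
  · intro i hi z hz
    obtain ⟨e, rfl⟩ := exists_root hz
    rw [show (16 / 4 : ℕ) = 4 by norm_num, ← row_counts i hi e]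
    exact card_eq (fun j => E i j) e
  · intro j hj z hz
    obtain ⟨e, rfl⟩ := exists_root hz
    rw [show (16 / 4 : ℕ) = 4 by norm_num, ← col_counts j hj e]
    exact card_eq (fun i => E i j) e
  · rintro ⟨-, h⟩
    have h1 := h 4 1 (by decide) (root 0) (root_pow 0)
    have h2 : ∀ j, H 4 j * (H 1 j)⁻¹ = root (E 4 j + -E 1 j) := by
      intro j
      rw [H_apply, H_apply, root_inv, root_mul]
    simp only [h2] at h1
    rw [card_eq (fun j => E 4 j + -E 1 j) 0, bad_count] at h1
    norm_num at h1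

end Pool.Agent.Results.MP_56f6b7_co.BalancedNotGH
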